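import Mathlib

/-!
# A countably categorical Jordan nilring which is not solvable

Rings are not assumed associative, and there is no restriction on the characteristic.  The ring is the
Lie algebra `F_2^3` with the cross product: it is commutative because `2 = 0`, all squares are
zero, so it is a Jordan nilring, and it is perfect.  It is finite, hence countably categorical: every
countable structure with the same complete first-order theory is isomorphic to it.
-/

set_option autoImplicit false

namespace Pool.Agent.Results.MP_bd8d3e_al.JordanCharTwo

open FirstOrder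

/-- The function symbols `0`, `-`, `+`, `·`. -/
inductive Fn : ℕ → Type
  | zero : Fn 0
  | neg : Fn 1
  | add : Fn 2
  | mul : Fn 2

/-- The first-order language of (nonassociative, nonunital) rings. -/
def ringLang : Language := ⟨Fn, fun _ => Empty⟩

/-- A ring as a structure for this language. -/
@[reducible] def ringStructure (A : Type) [NonUnitalNonAssocRing A] : ringLang.Structure A where
  funMap := fun {_} f => match f with
    | .zero => fun _ => 0
    | .neg => fun x => - x 0
    | .add => fun x => x 0 + x 1
    | .mul => fun x => x 0 * x 1
  RelMap := fun {_} r => Empty.elim r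

/-- `A` is countable, and every countable structure which satisfies exactly the same first-order
sentences as `A` is isomorphic to `A`. -/
def CountablyCategorical (A : Type) [NonUnitalNonAssocRing A] : Prop :=
  letI := ringStructure A
  Countable A ∧ ∀ (B : Type) (_ : ringLang.Structure B) (_ : Nonempty B) (_ : Countable B),
    B ⊨ ringLang.completeTheory A → Nonempty (A ≃[ringLang] B)

/-- The derived powers. -/
def derived (A : Type) [NonUnitalNonAssocRing A] : ℕ → AddSubgroup A
  | 0 => ⊤
  | k + 1 => AddSubgroup.closure {z | ∃ u ∈ derived A k, ∃ v ∈ derived A k, z = u * v}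

open Language in
/-- Finite structures for this language are countably categorical. -/
theorem categorical_of_finite (A : Type) [NonUnitalNonAssocRing A] [Finite A] :
    CountablyCategorical A := by
  let _ := ringStructure A
  refine ⟨inferInstance, fun B _ _ _ hB => ?_⟩
  classical
  have := Fintype.ofFinite A
  -- terms
  let v : A → ringLang.Term (Empty ⊕ A) := fun a => Term.var (Sum.inr a)
  -- the facts describing `A`
  let facts : (A × A) ⊕ (Unit ⊕ (A ⊕ ((A × A) ⊕ (A × A)))) → ringLang.Formula (Empty ⊕ A) := fun t =>
    match t with
    | .inl (a, b) => if a = b then Term.equal (v a) (v a) else (Term.equal (v a) (v b)).not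
    | .inr (.inl _) => Term.equal (Term.func (Fn.zero : ringLang.Functions 0) ![]) (v 0)
    | .inr (.inr (.inl a)) => Term.equal (Term.func (Fn.neg : ringLang.Functions 1) ![v a]) (v (-a))
    | .inr (.inr (.inr (.inl (a, b)))) =>
        Term.equal (Term.func (Fn.add : ringLang.Functions 2) ![v a, v b]) (v (a + b))
    | .inr (.inr (.inr (.inr (a, b)))) =>
        Term.equal (Term.func (Fn.mul : ringLang.Functions 2) ![v a, v b]) (v (a * b))
  let φ : ringLang.Sentence := Formula.iExs A (Formula.iInf facts)
  have hA : A ⊨ φ := by
    show (Formula.iExs A (Formula.iInf facts)).Realize _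
    rw [Formula.realize_iExs]
    refine ⟨id, ?_⟩
    rw [Formula.realize_iInf]
    rintro (⟨a, b⟩ | _ | a | ⟨a, b⟩ | ⟨a, b⟩)
    · by_cases h : a = b
      · simp [facts, h, v]
      · simp [facts, h, v]
    · simp only [facts, v, Formula.realize_equal, Term.realize_var, Sum.elim_inr]
      rfl
    · simp only [facts, v, Formula.realize_equal, Term.realize_var, Sum.elim_inr]
      rfl
    · simp only [facts, v, Formula.realize_equal, Term.realize_var, Sum.elim_inr]
      rfl
    · simp only [facts, v, Formula.realize_equal, Term.realize_var, Sum.elim_inr]
      rfl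
  have hφ : B ⊨ φ := by
    apply hB.realize_of_mem
    rw [mem_completeTheory]
    exact hA
  have hφ' : (Formula.iExs A (Formula.iInf facts)).Realize (default : Empty → B) := hφ
  rw [Formula.realize_iExs] at hφ'
  obtain ⟨g, hg⟩ := hφ'
  rw [Formula.realize_iInf] at hg
  have hinj : Function.Injective g := by
    intro a b hab
    by_contra hne
    have h1 := hg (.inl (a, b))
    simp only [facts, v, if_neg hne, Formula.realize_not, Formula.realize_equal, Term.realize_var,
      Sum.elim_inr] at h1
    exact h1 hab
  -- cardinality
  have hcard : Nat.card B ≤ Nat.card A ∧ Finite B := by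
    have h1 : A ⊨ (Sentence.cardGe ringLang (Nat.card A + 1)).not := by
      rw [Sentence.realize_not, Sentence.realize_cardGe]
      rw [not_le, ← Nat.cast_card]
      exact_mod_cast Nat.lt_succ_self _
    have h2 : B ⊨ (Sentence.cardGe ringLang (Nat.card A + 1)).not := by
      apply hB.realize_of_mem
      rw [mem_completeTheory]
      exact h1
    rw [Sentence.realize_not, Sentence.realize_cardGe, not_le] at h2
    have h3 : Finite B := by
      rw [← Cardinal.lt_aleph0_iff_finite]
      exact h2.trans (Cardinal.natCast_lt_aleph0)
    refine ⟨?_, h3⟩
    rw [← Nat.cast_card] at h2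
    have h4 : Nat.card B < Nat.card A + 1 := by exact_mod_cast h2
    omega
  have := hcard.2
  have hbij : Function.Bijective g := by
    rw [Nat.bijective_iff_injective_and_card]
    refine ⟨hinj, le_antisymm ?_ hcard.1⟩
    exact Nat.card_le_card_of_injective g hinj
  refine ⟨⟨Equiv.ofBijective g hbij, ?_, ?_⟩⟩
  · intro n f x
    cases f with
    | zero =>
      have h1 := hg (.inr (.inl ()))
      simp only [facts, v, Formula.realize_equal, Term.realize_var, Sum.elim_inr] at h1
      show g 0 = _
      rw [← h1]
      refine congrArg (fun w : Fin 0 → B => Structure.funMap (L := ringLang) (Fn.zero : Fn 0) w) (funext fun i => ?_)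
      exact i.elim0
    | neg =>
      have h1 := hg (.inr (.inr (.inl (x 0))))
      simp only [facts, v, Formula.realize_equal, Term.realize_var, Sum.elim_inr] at h1
      show g (- x 0) = _
      rw [← h1]
      refine congrArg (fun w : Fin 1 → B => Structure.funMap (L := ringLang) (Fn.neg : Fn 1) w) (funext fun i => ?_)
      fin_cases i
      rfl
    | add =>
      have h1 := hg (.inr (.inr (.inr (.inl (x 0, x 1)))))
      simp only [facts, v, Formula.realize_equal, Term.realize_var, Sum.elim_inr] at h1
      show g (x 0 + x 1) = _
      rw [← h1]
      refine congrArg (fun w : Fin 2 → B => Structure.funMap (L := ringLang) (Fn.add : Fn 2) w) (funext fun i => ?_)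
      fin_cases i <;> rfl
    | mul =>
      have h1 := hg (.inr (.inr (.inr (.inr (x 0, x 1)))))
      simp only [facts, v, Formula.realize_equal, Term.realize_var, Sum.elim_inr] at h1
      show g (x 0 * x 1) = _
      rw [← h1]
      refine congrArg (fun w : Fin 2 → B => Structure.funMap (L := ringLang) (Fn.mul : Fn 2) w) (funext fun i => ?_)
      fin_cases i <;> rfl
  · intro n r
    exact Empty.elim r

/-- `F_2^3` -/
def J : Type := Fin 3 → ZMod 2

instance : AddCommGroup J := inferInstanceAs (AddCommGroup (Fin 3 → ZMod 2))
instance : Fintype J := inferInstanceAs (Fintype (Fin 3 → ZMod 2))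
instance : DecidableEq J := inferInstanceAs (DecidableEq (Fin 3 → ZMod 2))

/-- `F_2^3` with the cross product -/
instance : NonUnitalNonAssocRing J where
  mul u v := ![u 1 * v 2 + u 2 * v 1, u 2 * v 0 + u 0 * v 2, u 0 * v 1 + u 1 * v 0]
  left_distrib := by decide
  right_distrib := by decide
  zero_mul := by decide
  mul_zero := by decide

/-- There is a countably categorical Jordan nilring which is not solvable. -/
theorem result : ∃ (A : Type) (_ : NonUnitalNonAssocRing A),
    (∀ x y : A, x * y = y * x) ∧ (∀ x y : A, ((x * x) * y) * x = (x * x) * (y * x)) ∧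
    (∀ x : A, x * x = 0) ∧ Nat.card A = 8 ∧ CountablyCategorical A ∧
    (∀ k, derived A k = ⊤) ∧ (∀ k, derived A k ≠ ⊥) := by
  have htop : ∀ k, derived J k = ⊤ := by
    intro k
    induction k with
    | zero => rfl
    | succ k ih =>
      rw [derived, ih, eq_top_iff]
      intro z _
      have h : ∀ z : J, ∃ u v u' v' : J, z = u * v + u' * v' := by decide
      obtain ⟨u, v, u', v', rfl⟩ := h z
      exact add_mem (AddSubgroup.subset_closure ⟨u, trivial, v, trivial, rfl⟩)
        (AddSubgroup.subset_closure ⟨u', trivial, v', trivial, rfl⟩)
  refine ⟨J, inferInstance, by decide, by decide, by decide, ?_, categorical_of_finite J, htop,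
    fun k => ?_⟩
  · rw [Nat.card_eq_fintype_card]; decide
  · rw [htop k]
    intro h
    have h0 : ∃ z : J, z ≠ 0 := by decide
    obtain ⟨z, hz⟩ := h0
    have h1 : z ∈ (⊥ : AddSubgroup J) := by rw [← h]; trivial
    exact hz (AddSubgroup.mem_bot.1 h1)

end Pool.Agent.Results.MP_bd8d3e_al.JordanCharTwo
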